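import Pool.Agent.H984.PcFin4

/-!
MP_cf7fa9_pr, Q2: negative answer. There are vertex-transitive graphs `G_n` of constant degree whose lazy simple random
walks satisfy the product condition and have pre-cutoff, and edge weights in `[1, K]` for which the lazy walks on the
weighted graphs do not have pre-cutoff.

How the definitions (in `Pool.Agent.H984.PcStmt`, and `Robust` below) match the problem file. Graphs are `SimpleGraph`s on
finite vertex types; weights are functions `c : V → V → ℝ` of which only the values at adjacent pairs are used.
* `wdeg G c x` is `c_x = ∑_{y ~ x} c_{x,y}`.
* `walk G c` is the transition matrix of the lazy walk: `P(x,x) = 1/2`, `P(x,y) = c_{x,y} / (2 c_x)` for neighbours.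
* `stat G c x = c_x / ∑_y c_y` is the stationary law, `tv` the total variation distance.
* `MixedBy G c ε t` says that `‖P^t(x,·) - π‖_TV ≤ ε` for all `x`; `tmix G c ε` is the least such `t` (an infimum over
  the natural numbers; the last part of the theorem says that it is attained for all the graphs and weights in question).
* `lam2` is the supremum of the eigenvalues different from `1`, `trel = (1 - lam2)⁻¹` (all graphs are connected and all
  weights positive, so that the eigenvalue `1` is simple).
* `GSeq` is a sequence of finite graphs, `S.one` are the weights identically `1`, for which the walk is the lazy simple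
  random walk.
* `ProductCondition S w` says `t_rel / t_mix(1/4) → 0`.
* `PreCutoff S w` says `sup_{0 < ε < 1/2} limsup_n t_mix(ε) / t_mix(1 - ε) < ∞` (quotients in `[0, ∞]`).
* `BoundedPerturbation S w` says that `w` is symmetric and `1 ≤ w_e ≤ K` for every edge `e` of every `G_n`, for one `K`.
* `VertexTransitive G` says that the automorphism group is transitive on the vertices.
* `Robust` is the assertion of Q2.

The graphs. `G_n` is the product of an edge with a lamplighter graph over `Q = SL_2(F)`, with lamps in `Q` (and a third
coordinate in `Q`, on which the walk also moves), for a fixed symmetric generating set whose spectral gap is uniform in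
`F`. All times of interest are of order `|Q| log |Q|` for the simple random walk. In the perturbation the weights of the
edges moving a few chosen lamps depend on the levels of these lamps in such a way that from a bad starting point `M` groups
of lamps are released one after the other, which takes a time of order `M |Q| log |Q|`. In addition there is a position of
the third coordinate, of small but positive probability per unit of time of order `|Q| log |Q|`, from which everything is
released quickly. So `t_mix(1 - β)` stays of order `|Q| log |Q|` for a positive `β = β(M)`.
-/

set_option autoImplicit false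

open Classical Filter

namespace Pool.Agent.Results.MP_cf7fa9_pr.PrecutoffNotRobust

open Pool.Agent.H984 Pool.Agent.H984.PC

/-- A sequence of finite connected vertex-transitive graphs, all of the same degree `d`. -/
def TransitiveSeq (S : GSeq) (d : ℕ) : Prop :=
  ∀ n, (S.G n).Connected ∧ VertexTransitive (S.G n) ∧ ∀ x, (S.G n).degree x = d

/-- The assertion of Q2: under the product condition, and provided that the lazy simple random walks have pre-cutoff, the
pre-cutoff is robust under bounded perturbations. -/
def Robust : Prop :=
  ∀ (S : GSeq) (d : ℕ), TransitiveSeq S d → ProductCondition S S.one → PreCutoff S S.one →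
    ∀ w : S.Wt, BoundedPerturbation S w → PreCutoff S w

/-- Q2 has a negative answer. -/
theorem result : ¬ Robust ∧
    ∃ (S : GSeq) (d : ℕ), TransitiveSeq S d ∧ Tendsto (fun n => Fintype.card (S.V n)) atTop atTop ∧
      ProductCondition S S.one ∧ PreCutoff S S.one ∧
      ∃ w : S.Wt, BoundedPerturbation S w ∧ ¬ PreCutoff S w ∧
        ∀ n (ε : ℝ), 0 < ε → MixedBy (S.G n) (S.one n) ε (tmix (S.G n) (S.one n) ε) ∧
          MixedBy (S.G n) (w n) ε (tmix (S.G n) (w n) ε) := by
  refine ⟨fun h => ?_, main2⟩
  obtain ⟨S, d, h1, _, h2, h3, w, h4, h5, _⟩ := main2
  exact h5 (h S d h1 h2 h3 w h4)

end Pool.Agent.Results.MP_cf7fa9_pr.PrecutoffNotRobust
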